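import Mathlib
import Pool.Agent.H692.FR.Final

/-!
# Shortest paths with real lengths: decision trees with few rounds

A directed graph has three layers of `n` vertices: `A i j` is the length of the edge from `i` (first
layer) to `j` (second layer), `B j k` the length of the edge from `j` to `k` (third layer) and `C i k`
the length of the edge from `i` to `k`. How many tests are necessary to find all shortest paths, if
the tests are made in few rounds? (The tests of one round are made simultaneously, so they may depend
on the outcomes of the earlier rounds only.)

The definitions are in `Pool/Agent/H692/FR/Model.lean`, and those of the first five items in the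
modules `N575.LDT.Model`, `N575.PCT.Model` and `N575.PCT.Main` of the library:

* `lengths A B C : Wts n`: the lengths as one vector (`C` with the sign `-`), and `wt w (i, j, k)` is
  `A i j + B j k - C i k`;
* `pot x`: the lengths `A i j = x i - x j`, `B j k = x j - x k`, `C i k = x i - x k` given by a
  potential `x` on the vertices, for which all paths from `i` to `k` are equally long;
* `Shallow f`: the function `f` of the lengths (with values in the integers) is locally constant near
  `pot x` for a dense set of potentials `x`;
* `Regular f`: the real function `f` of the lengths is, for generic (a comeagre set of) potentials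
  `x`, differentiable at `pot x`, with a value or a derivative which is not zero;
* `Near δ A B C`: the entries of `A`, `B`, `C` differ from `1`, `1`, `2` by less than `δ`;
* `RTree n β`: decision trees with outputs in `β`; a node asks for the value of a shallow function
  (`free`), or it is a `round`, which asks at the same time for the signs of
  `A i j + B j k - C i k` for any number of triples (comparisons of an edge with a path) and for the
  signs of any number of regular functions (tests). The trees may be infinite, but all branches are
  finite;
* `run`, `rounds`, `comparisons`, `tests`: the output and the numbers of the rounds, of the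
  comparisons (of all rounds together) and of the tests (of all rounds together) on the path of the
  computation. Nodes `free` are not counted, and there may be any number of them.

All analytic functions which are not zero of the second order for all potentials are regular (part
3), for example all nonzero linear forms. Free are for example the sign of every analytic function
which is not zero for all potentials and the integer part of every analytic function which is not an
integer for all potentials: all binary digits of the lengths, comparisons of paths with different end
vertices.

Result: with `r` rounds at least `n ^ (2 + 2 / (r + 1)) / (12 * 16 ^ r)` comparisons and tests are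
necessary, even if there is at most one shortcut (a path from the first to the third layer which is
shorter than the edge). For `r = 1` these are `n ^ 3`, for `r = 2` they are `n ^ (8 / 3)`. Without a
bound for the number of rounds `O (n ^ 2 (log n) ^ 2)` linear tests suffice (Kane, Lovett and Moran).
More precisely, a saving of comparisons needs many tests: for every `x`, at least
`n ^ 3 / (16 (4 x) ^ (r - 1))` comparisons and tests, or at least `x ^ 2 n ^ 2 / (12 * 16 ^ r)` tests
are made.

Proof. Near a generic potential all shallow functions are constant, and the regular functions have a
constant sign or the sign of their derivative in the direction `u` of the deviation. So there remain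
linear tests for `u`. The adversary keeps a direction `u` in the boundary of the cone of the graphs
without shortcuts such that no form which was tested vanishes, except comparisons of an edge with a
path, and a large set of triangles (triples) of weight `0` which were not compared. In each round `u`
is moved by a small multiple of the weights for which the triangle `(i, j, k)` has the weight
`(a i + b k - c j) ^ 2`, where `a`, `b`, `c` are random labels from about `x` possible ones. The part
`1 / (2 x)` of the triangles remains tight. A form which is not a multiple of the weight of a single
triangle can be made nonzero by a change which does not concern the tight triangles (a different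
potential for each class of the labels), except with probability `1 / x ^ 2`; in this exceptional
case the weight of one edge in its support is increased, and only few tight triangles are lost. In
the last round each of the remaining triangles has to be compared.
-/

set_option autoImplicit false

namespace Pool.Agent.Results.MP_885423_lc.FewRounds

open Pool.Agent.N575.LDT (Wts pot)
open Pool.Agent.N575.PCT (lengths Near Regular regular_analytic)
open Pool.Agent.H692.FR

/-- the length of the path from `i` to `k` given by `o`: the edge from `i` to `k` (`none`), or the
path through the vertex `j` of the second layer (`some j`) -/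
def pathLength {n : ℕ} (A B C : Fin n → Fin n → ℝ) (i k : Fin n) : Option (Fin n) → ℝ
  | none => C i k
  | some j => A i j + B j k

/-- the paths `S i k` are shortest paths -/
def Shortest {n : ℕ} (A B C : Fin n → Fin n → ℝ) (S : Fin n → Fin n → Option (Fin n)) : Prop :=
  ∀ i k o, pathLength A B C i k (S i k) ≤ pathLength A B C i k o

/-- there is no shortcut: every edge from the first to the third layer is shorter than all other
paths -/
def NoShortcut {n : ℕ} (A B C : Fin n → Fin n → ℝ) : Prop :=
  ∀ i j k, C i k < A i j + B j k

/-- there is exactly one shortcut, and it is strictly shorter -/
def OneShortcut {n : ℕ} (A B C : Fin n → Fin n → ℝ) : Prop :=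
  ∃ i j k, A i j + B j k < C i k ∧
    ∀ i' j' k', (i', j', k') ≠ (i, j, k) → C i' k' < A i' j' + B j' k'

/-- Decision trees with at most `r` rounds, with real lengths close to `1`, `1`, `2`.
1. Trees which find shortest paths whenever there is at most one shortcut; `T` bounds the number of
comparisons and tests if there is no shortcut.
2. Trees which decide whether there is no or exactly one shortcut; `T` bounds the number of
comparisons and tests and `q` the number of tests if there is no shortcut.
3. An analytic function is regular if for some potential its value or its derivative is not zero. -/
theorem result :
    (∀ n r T : ℕ, 1 ≤ n → 1 ≤ r → ∀ δ : ℝ, 0 < δ →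
      ∀ t : RTree n (Fin n → Fin n → Option (Fin n)),
      (∀ A B C, Near δ A B C → NoShortcut A B C ∨ OneShortcut A B C →
        Shortest A B C (t.run (lengths A B C))) →
      (∀ A B C, Near δ A B C → NoShortcut A B C → t.rounds (lengths A B C) ≤ r ∧
        t.comparisons (lengths A B C) + t.tests (lengths A B C) ≤ T) →
      (n : ℝ) ^ (2 + 2 / ((r : ℝ) + 1)) ≤ 12 * 16 ^ r * T) ∧
    (∀ n r T q : ℕ, 1 ≤ n → 1 ≤ r → ∀ δ : ℝ, 0 < δ → ∀ t : RTree n Bool,
      (∀ A B C, Near δ A B C → NoShortcut A B C → t.run (lengths A B C) = true) →
      (∀ A B C, Near δ A B C → OneShortcut A B C → t.run (lengths A B C) = false) →
      (∀ A B C, Near δ A B C → NoShortcut A B C → t.rounds (lengths A B C) ≤ r ∧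
        t.comparisons (lengths A B C) + t.tests (lengths A B C) ≤ T ∧
        t.tests (lengths A B C) ≤ q) →
      (n : ℝ) ^ (2 + 2 / ((r : ℝ) + 1)) ≤ 12 * 16 ^ r * T ∧
      ∀ x : ℕ, 1 ≤ x → (n : ℝ) ^ 3 ≤ 16 * (4 * x) ^ (r - 1) * T ∨
        (x : ℝ) ^ 2 * n ^ 2 ≤ 12 * 16 ^ r * q) ∧
    (∀ (n : ℕ) (f : Wts n → ℝ), AnalyticOnNhd ℝ f Set.univ →
      (∃ x, f (pot x) ≠ 0 ∨ fderiv ℝ f (pot x) ≠ 0) → Regular f) := by
  classical
  refine ⟨?_, ?_, fun n f hf h => regular_analytic hf h⟩
  · intro n r T hn hr δ hδ t h1 h2
    refine headline (fun S => decide (S = fun _ _ => none)) t hn hδ hr ?_ ?_
    · intro A B C hnear hno
      refine ⟨?_, h2 A B C hnear hno⟩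
      have hS := h1 A B C hnear (Or.inl hno)
      have h4 : t.run (lengths A B C) = fun _ _ => none := by
        funext a c
        cases h5 : t.run (lengths A B C) a c with
        | none => rfl
        | some j =>
          have h6 := hS a c none
          rw [h5] at h6
          exact absurd h6 (not_le.2 (hno a j c))
      rw [h4]
      simp
    · intro A B C hnear a b c h3 h4
      have hS := h1 A B C hnear (Or.inr ⟨a, b, c, h3, h4⟩)
      rw [decide_eq_false_iff_not]
      intro h6
      have h7 := hS a c (some b)
      rw [h6] at h7
      exact absurd h7 (not_le.2 h3)
  · intro n r T q hn hr δ hδ t h1 h2 h3
    refine ⟨headline id t hn hδ hr (fun A B C h4 h5 => ⟨h1 A B C h4 h5, (h3 A B C h4 h5).1,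
      (h3 A B C h4 h5).2.1⟩) (fun A B C h4 a b c h5 h6 => h2 A B C h4 ⟨a, b, c, h5, h6⟩),
      fun x hx => tradeoff id t hn hδ hr hx (fun A B C h4 h5 => ⟨h1 A B C h4 h5,
        h3 A B C h4 h5⟩) (fun A B C h4 a b c h5 h6 => h2 A B C h4 ⟨a, b, c, h5, h6⟩)⟩

end Pool.Agent.Results.MP_885423_lc.FewRounds
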