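import Mathlib
import Pool.Agent.H692.RT.TriFinal

/-!
# Shortest paths with real lengths: randomized decision trees with two rounds

A directed graph has three layers of `n` vertices: `A i j` is the length of the edge from `i` (first
layer) to `j` (second layer), `B j k` the length of the edge from `j` to `k` (third layer) and `C i k`
the length of the edge from `i` to `k`. How many tests does a randomized algorithm need to find all
shortest paths, if the tests are made in two rounds? (The tests of one round are made simultaneously,
so those of the second round may depend on the outcomes of the first round, but not on each other.)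

The definitions of the following items are in the modules `N575.LDT.Model` and `N575.PCT.Main` of the
library:

* `lengths A B C : Wts n`: the lengths as one vector (`C` with the sign `-`);
* `pot x`: the lengths `A i j = x i - x j`, `B j k = x j - x k`, `C i k = x i - x k` given by a
  potential `x` on the vertices, for which all paths from `i` to `k` are equally long;
* `Near δ A B C`: the entries of `A`, `B`, `C` differ from `1`, `1`, `2` by less than `δ`;

and those of the following ones in `Pool/Agent/H692/KS/Model.lean`:

* `Shallow pot f`: the function `f` of the lengths (with values in the integers) is locally constant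
  near `pot x` for a dense set of potentials `x`;
* `Regular pot f`: the real function `f` of the lengths is, for generic (a comeagre set of) potentials
  `x`, differentiable at `pot x`, with a value or a derivative which is not zero;
* `RTree pot β`: decision trees with outputs in `β`; a node asks for the value of a shallow function
  (`free`), or it is a `round`, which asks at the same time for the signs (negative, zero, positive)
  of any number of regular functions (tests). The trees may be infinite, but all branches are finite;
* `run`, `rounds`, `tests`: the output and the numbers of the rounds and of the tests (of both rounds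
  together) on the path of the computation. Nodes `free` are not counted, and there may be any number
  of them.

A randomized tree is a finite family `t ρ` of trees with probabilities `p ρ`; `prob p Q` is the
probability of `Q` (`Pool/Agent/H692/RT/Main.lean`).

All analytic functions which are not zero of the second order for all potentials are regular (part
3), for example all nonzero linear forms, such as the difference of the lengths of two paths. Free are
for example the sign of every analytic function which is not zero for all potentials and the integer
part of every analytic function which is not an integer for all potentials: all binary digits of the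
lengths, comparisons of paths with different end vertices.

Result: a randomized tree with at most two rounds which finds shortest paths with probability
`(1 + γ) / 2` makes on average at least `γ n ^ (8 / 3) / 23` tests for some graph without shortcut (a
path from the first to the third layer which is shorter than the edge), even if there is at most one
shortcut. Without a bound for the number of rounds `O (n ^ 2 (log n) ^ 2)` linear tests suffice
(Kane, Lovett and Moran).

Proof. Near a generic potential all shallow functions are constant, and the regular functions have a
constant sign or the sign of their derivative in the direction `u` of the deviation. So there remain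
linear tests for `u`. Let `u = q + η v`. Here `q` is generic with the property that the triple
`(i, j, k)` has the weight `0` (is tight) if `a i + b k = c j` for random labels `a`, `b`, `c` from
about `x` possible ones, and else a positive weight; it is tight with probability `1 / (2 x)`.
And `v` has positive entries of very different sizes in random order. For a random tight
triple `f`, let `v'` be `v` without the three edges of `f`, and let `y` and `z` be obtained from
`q + η v'` by adding a very small number to the three edges of `f`, which is positive for `y` and
negative for `z`: so `f` is the only shortcut for `z`, and there is none for `y` and `u`. A nonzero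
linear form which is not a multiple of the weight of a triple has different signs at `u` and `y` only
if it vanishes at `q`, which has the probability `1 / x ^ 2`, and together with the tightness of `f`
the probability `1 / x ^ 3` (for all triples up to eight), and if the largest entry of `v` in the
support of the form belongs to `f`, which has on average the probability `1 / n ^ 2`. So, if there are
only few tests, then the outcomes of the first round are the same for `u`, `y` and `z`. The second
round can distinguish `y` and `z` only by a test of a multiple of the weight of `f`; but from the
outcomes for `u` nothing is known about `f`, and there are `n ^ 3 / (2 x)` tight triples.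
-/

set_option autoImplicit false

namespace Pool.Agent.Results.MP_885423_lc.RandomTwoRounds

open Pool.Agent.N575.LDT (Wts pot)
open Pool.Agent.N575.PCT (lengths Near)
open Pool.Agent.H692.KS (RTree Regular RTree.run RTree.rounds RTree.tests)
open Pool.Agent.H692.RT (prob prob_eq)

/-- the length of the path from `i` to `k` given by `o`: the edge from `i` to `k` (`none`), or the
path through the vertex `j` of the second layer (`some j`) -/
def pathLength {n : ℕ} (A B C : Fin n → Fin n → ℝ) (i k : Fin n) : Option (Fin n) → ℝ
  | none => C i k
  | some j => A i j + B j k

/-- the paths `S i k` are shortest paths -/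
def Shortest {n : ℕ} (A B C : Fin n → Fin n → ℝ) (S : Fin n → Fin n → Option (Fin n)) : Prop :=
  ∀ i k o, pathLength A B C i k (S i k) ≤ pathLength A B C i k o

/-- there is no shortcut: every edge from the first to the third layer is shorter than all other
paths -/
def NoShortcut {n : ℕ} (A B C : Fin n → Fin n → ℝ) : Prop :=
  ∀ i j k, C i k < A i j + B j k

/-- there is exactly one shortcut, and it is strictly shorter -/
def OneShortcut {n : ℕ} (A B C : Fin n → Fin n → ℝ) : Prop :=
  ∃ i j k, A i j + B j k < C i k ∧
    ∀ i' j' k', (i', j', k') ≠ (i, j, k) → C i' k' < A i' j' + B j' k'

theorem prob_mono {Ω : Type} [Fintype Ω] {p : Ω → ℝ} (hp0 : ∀ ρ, 0 ≤ p ρ) {Q Q' : Ω → Prop}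
    (h : ∀ ρ, Q ρ → Q' ρ) : prob p Q ≤ prob p Q' := by
  classical
  rw [prob_eq, prob_eq]
  refine Finset.sum_le_sum fun ρ _ => ?_
  by_cases h1 : Q ρ
  · rw [if_pos h1, if_pos (h ρ h1)]
  · rw [if_neg h1]
    split_ifs
    · exact hp0 ρ
    · exact le_rfl

/-- Let `t ρ` be decision trees with at most two rounds, where `ρ` has the probability `p ρ`, for real
lengths close to `1`, `1`, `2`.
1. Trees which find shortest paths with probability `(1 + γ) / 2` whenever there is at most one
shortcut; `T` bounds the mean number of tests if there is no shortcut.
2. Trees which decide with probability `(1 + γ) / 2` whether there is no or exactly one shortcut; `T`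
bounds the mean number of tests if there is no shortcut.
3. An analytic function is regular if for some potential its value or its derivative is not zero. -/
theorem result :
    (∀ n : ℕ, 1 ≤ n → ∀ δ : ℝ, 0 < δ → ∀ (Ω : Type) [Fintype Ω] (p : Ω → ℝ), (∀ ρ, 0 ≤ p ρ) →
      ∑ ρ, p ρ = 1 → ∀ (t : Ω → RTree (pot : (Fin 3 × Fin n → ℝ) → Wts n)
        (Fin n → Fin n → Option (Fin n))) (γ T : ℝ), 0 < γ →
      (∀ A B C, Near δ A B C → NoShortcut A B C ∨ OneShortcut A B C →
        (1 + γ) / 2 ≤ prob p (fun ρ => Shortest A B C ((t ρ).run (lengths A B C)))) →
      (∀ A B C, Near δ A B C → NoShortcut A B C → (∀ ρ, (t ρ).rounds (lengths A B C) ≤ 2) ∧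
        ∑ ρ, p ρ * (t ρ).tests (lengths A B C) ≤ T) →
      γ * (n : ℝ) ^ ((8 : ℝ) / 3) ≤ 23 * T) ∧
    (∀ n : ℕ, 1 ≤ n → ∀ δ : ℝ, 0 < δ → ∀ (Ω : Type) [Fintype Ω] (p : Ω → ℝ), (∀ ρ, 0 ≤ p ρ) →
      ∑ ρ, p ρ = 1 → ∀ (t : Ω → RTree (pot : (Fin 3 × Fin n → ℝ) → Wts n) Bool) (γ T : ℝ),
      0 < γ →
      (∀ A B C, Near δ A B C → NoShortcut A B C →
        (1 + γ) / 2 ≤ prob p (fun ρ => (t ρ).run (lengths A B C) = true)) →
      (∀ A B C, Near δ A B C → OneShortcut A B C →
        (1 + γ) / 2 ≤ prob p (fun ρ => (t ρ).run (lengths A B C) = false)) →
      (∀ A B C, Near δ A B C → NoShortcut A B C → (∀ ρ, (t ρ).rounds (lengths A B C) ≤ 2) ∧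
        ∑ ρ, p ρ * (t ρ).tests (lengths A B C) ≤ T) →
      γ * (n : ℝ) ^ ((8 : ℝ) / 3) ≤ 23 * T) ∧
    (∀ (n : ℕ) (f : Wts n → ℝ), AnalyticOnNhd ℝ f Set.univ →
      (∃ x, f (pot x) ≠ 0 ∨ fderiv ℝ f (pot x) ≠ 0) →
      Regular (pot : (Fin 3 × Fin n → ℝ) → Wts n) f) := by
  classical
  refine ⟨?_, ?_, fun n f hf h => Pool.Agent.N575.PCT.regular_analytic hf h⟩
  · intro n hn δ hδ Ω _ p hp0 hp1 t γ T hγ h1 h2
    refine Pool.Agent.H692.RT.apsp hn hδ p hp0 hp1
      (fun S => decide (S ≠ fun _ _ => (none : Option (Fin n)))) t hγ ?_ ?_
    · intro A B C hnear hno
      refine ⟨(h1 A B C hnear (Or.inl hno)).trans (prob_mono hp0 fun ρ hS => ?_),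
        h2 A B C hnear hno⟩
      have h4 : (t ρ).run (lengths A B C) = fun _ _ => none := by
        funext a c
        cases h5 : (t ρ).run (lengths A B C) a c with
        | none => rfl
        | some j =>
          have h6 := hS a c none
          rw [h5] at h6
          exact absurd h6 (not_le.2 (hno a j c))
      rw [h4]
      simp
    · intro A B C hnear a b c h3 h4
      refine (h1 A B C hnear (Or.inr ⟨a, b, c, h3, h4⟩)).trans (prob_mono hp0 fun ρ hS => ?_)
      rw [decide_eq_true_iff]
      intro h6
      have h7 := hS a c (some b)
      rw [h6] at h7
      exact absurd h7 (not_le.2 h3)
  · intro n hn δ hδ Ω _ p hp0 hp1 t γ T hγ h1 h2 h3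
    refine Pool.Agent.H692.RT.apsp hn hδ p hp0 hp1 not t hγ ?_ ?_
    · intro A B C hnear hno
      refine ⟨(h1 A B C hnear hno).trans (prob_mono hp0 fun ρ hS => ?_), h3 A B C hnear hno⟩
      rw [hS]
      rfl
    · intro A B C hnear a b c h5 h4
      refine (h2 A B C hnear ⟨a, b, c, h5, h4⟩).trans (prob_mono hp0 fun ρ hS => ?_)
      rw [hS]
      rfl

end Pool.Agent.Results.MP_885423_lc.RandomTwoRounds
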