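import Pool.Agent.H698.UA.Up

set_option autoImplicit false

/-!
# All-pairs shortest paths for circuits that compute with unknown inputs

The arcs of a complete directed graph on `n` vertices have weights `1` and `W`.  The weight of each
arc is known to be `1`, known to be `W` or unknown.  The gates have values in an ordered set `D` of
states of knowledge and apply arbitrary functions `D → D → D` that respect the order (more knowledge
about the arguments gives more knowledge about the value); `D` is any partially ordered set in which
the elements below a given one form a chain of real numbers.

* If `D` is the flat order with the values `unknown`, `known true` and `known false` then these are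
  the hazard-free (Kleene, three-valued) circuits with arbitrary binary gates, each evaluated by its
  most precise extension; negations are allowed.
* If `D` is the flat order over an arbitrary set `A` (integers, words, matrices, ...) the gates may
  apply arbitrary functions `A → A → A` as soon as the arguments are known.
* If `D = ℝ` then these are the monotone real circuits, for example the Floyd-Warshall algorithm,
  whose intermediate values are upper bounds of distances.

For all these models at once: randomised circuits which find, with advantage `δ` for each pair
`(u, v)` of vertices, that the distance from `u` to `v` is at most `2` as soon as the arcs of weight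
`1` are known, and which do not assert this if everything is known and the distance is larger than
`2 α` (with any approximation factor `α`), have an expected number of gates of at least
`δ n ^ 3 / 200`. The naive three-valued circuits with at most `3 n ^ 3` gates determine, for every
partial knowledge of the weights, all that can be known about the question which distances are at
most `2`.

Proof. Declare the weights `W` unknown. All gate values are then below the value for the complete
directed graph all of whose arcs are known to have weight `1`, so that they lie in a chain, in which
the gate is simulated by one monotone real gate. Then the average-case bound `avg_bound` for monotone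
real programs of `Pool.Graph.R_seed8.H587R2.MRB` applies.
-/

namespace Pool.Agent.Results.MP_885423_lc.UnknownInputCircuits

open Finset Pool.Agent.H698.HF Pool.Agent.H698.UA
open Pool.Agent.H587R2.MRB (dist)
open Flat (unknown known)

/-- (1) Let `D` be a tree-like order of states of knowledge, `α ≥ 1`, `W > 2 α`, `0 < δ ≤ 1 / 2` and
`δ n ≥ 8`. Every randomised circuit over `D` which distinguishes distances at most `2` from distances
larger than `2 α` with advantage `δ` (`SolvesA W α δ p l`) has an expected number of gates of at least
`δ n ^ 3 / 200`. (2) If `n ≥ 2` and `W > 2` then some three-valued circuit with at most `3 n ^ 3`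
gates does this without errors; for every partial knowledge `P` of the weights it finds for all `u`,
`v` whether the distance is known to be at most `2` and whether it is known to be larger than `2`.
(3) The real numbers and all flat orders are tree-like, and the most precise extension of a function
to a flat order is nondecreasing, so that it is allowed at the gates. -/
theorem result :
    (∀ (D : Type) [PartialOrder D], TreeLike D → ∀ (n W : ℕ) (α δ : ℝ), δ ≤ 1 / 2 → 8 ≤ δ * n →
      1 ≤ α → 2 * α < W →
      ∀ (Ω : Type) [Fintype Ω] (p : Ω → ℝ) (l : Ω → List (Know (Fin n × Fin n) → D)),
        (∀ ω, Circ (l ω)) → SolvesA W α δ p l →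
        δ * (n : ℝ) ^ 3 ≤ 200 * ∑ ω, p ω * ((l ω).length : ℝ)) ∧
    (∀ n W : ℕ, 2 ≤ n → 2 < W →
      ∃ l : List (Know (Fin n × Fin n) → Flat Bool), Circ l ∧ l.length ≤ 3 * n ^ 3 ∧
      (∀ α : ℝ, 1 ≤ α → SolvesA W α (1 / 2) (fun _ : Unit => 1) (fun _ => l)) ∧
      ∃ out : Fin n → Fin n → Know (Fin n × Fin n) → Flat Bool, (∀ u v, out u v ∈ l) ∧
        ∀ (P : Know (Fin n × Fin n)) (u v : Fin n),
          (out u v P = known true ↔ ∀ x, Le P (full x) → dist (wts W x) u v ≤ 2) ∧
          (out u v P = known false ↔ ∀ x, Le P (full x) → 2 < dist (wts W x) u v)) ∧
    TreeLike ℝ ∧ ∀ A : Type, TreeLike (Flat A) ∧ (Nonempty A → ∀ (f : A → A → A)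
      (x x' y y' : Flat A), x ≤ x' → y ≤ y' → Flat.ext f x y ≤ Flat.ext f x' y') := by
  refine ⟨?_, fun n W hn hW => upperA hn hW, treeLike_real,
    fun A => ⟨Flat.treeLike, fun hA f x x' y y' hx hy => Flat.ext_mono' f x x' y y' hx hy⟩⟩
  intro D _ hD n W α δ hδ hn hα hW Ω _ p l hl hs
  exact lowerA hD hδ hn hα hW p l hl hs

end Pool.Agent.Results.MP_885423_lc.UnknownInputCircuits
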